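import Pool.Agent.H87.D3.Targets3

/-! Board d3h_modules, row D3H. -/

namespace Pool.Agent.H60.D3

open MeasureTheory Metric Set Filter Topology Pool.Agent.H87.SN Pool.Agent.H87.SH Pool.Agent.H87.AX
open Pool.Agent.H87.D3
open scoped ContDiff RealInnerProductSpace ENNReal

/-- finite unions -/
lemma d3h_union {n : ℕ} (f : E n → ℝ≥0∞) (t : Finset (E n)) (S : E n → Set (E n)) (B : ℝ≥0∞)
    (hB : ∀ c ∈ t, ∫⁻ x in S c, f x ≤ B) : ∫⁻ x in ⋃ c ∈ t, S c, f x ≤ t.card * B := by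
  classical
  induction t using Finset.induction_on with
  | empty => simp
  | insert a t ha ih =>
    rw [Finset.set_biUnion_insert]
    refine (lintegral_union_le _ _ _).trans ?_
    rw [Finset.card_insert_of_notMem ha]
    have h1 := hB a (Finset.mem_insert_self a t)
    have h2 := ih fun c hc => hB c (Finset.mem_insert_of_mem hc)
    push_cast
    rw [add_mul, one_mul, add_comm]
    exact add_le_add h2 h1

/-- The theorem: Q1 in dimension three. -/
theorem pf_D3H (hHSN : T_HSN) (hSMI : T_SMI) (hDSH : T_DSH) (hCOV : Pool.Agent.H87.AX.T_COV)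
    (hCL2 : Pool.Agent.H87.SN.T_CL2) : Pool.Agent.H87.D3.T_D3H := by
  intro m N A ε C hN hA hε
  obtain ⟨L, hL, h1⟩ := hSMI m N A hN hA
  rcases lt_or_ge C 0 with hC | hC
  · refine ⟨0, le_rfl, fun U u G hG hU hU2 hu hs he => ?_⟩
    exfalso
    have h2 : 0 ≤ ∫ x in ball (0 : V) 2, nsq (G x) :=
      integral_nonneg fun x => Finset.sum_nonneg fun i _ => sq_nonneg _
    linarith
  obtain ⟨B, hB0, hB⟩ := hHSN m L (2 * C + 1) ε hL (by linarith) hε
  obtain ⟨M, hM⟩ := hCOV (1 + 2) 8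
  obtain ⟨t, htc, ht1, ht2⟩ := hM (0 : V) (1 / 8) (closedBall 0 1) (by norm_num) (by
    refine closedBall_subset_closedBall ?_
    norm_num)
  refine ⟨M * B, by positivity, fun U u G hG hU hU2 hu hs he => ?_⟩
  have hS : MeasurableSet (ball (0 : V) 1 ∩ U) := measurableSet_ball.inter hU.measurableSet
  have e1 : hInt u (ball 0 1 ∩ U) ≤ ENNReal.ofReal (M * B) := by
    have e2 : ∀ c ∈ t, hInt u (ball c (1 / 8) ∩ U) ≤ ENNReal.ofReal B := by
      intro c hc
      obtain ⟨e3, e4⟩ := h1 ε C hε hC U u G hG hU hU2 hu hs he c (ht1 hc)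
      exact e4.trans (hB _ _ _ e3)
    have e5 : ball (0 : V) 1 ∩ U ⊆ ⋃ c ∈ t, (ball c (1 / 8) ∩ U) := by
      rintro x ⟨hx, hxU⟩
      obtain ⟨c, hc, hxc⟩ := mem_iUnion₂.1 (ht2 (ball_subset_closedBall hx))
      exact mem_iUnion₂.2 ⟨c, hc, hxc, hxU⟩
    calc hInt u (ball 0 1 ∩ U) ≤ ∫⁻ x in ⋃ c ∈ t, (ball c (1 / 8) ∩ U),
          ENNReal.ofReal (Real.sqrt (hsq u x)) := lintegral_mono_set e5
      _ ≤ t.card * ENNReal.ofReal B := d3h_union _ t _ _ e2
      _ ≤ M * ENNReal.ofReal B := mul_le_mul' (by exact_mod_cast htc) le_rfl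
      _ = ENNReal.ofReal (M * B) := by
          rw [ENNReal.ofReal_mul (Nat.cast_nonneg M), ENNReal.ofReal_natCast]
  have hae := hCL2 (1 + 2) m U u G hG.w12 hU hU2 hu
  have h2 := hDSH m U u G ε hε hG.w12.memLp_deriv hU hU2 hu hae hs
    (ne_top_of_le_ne_top ENNReal.ofReal_ne_top e1)
  refine ⟨fun i j => (ball (0 : V) 1 ∩ U).indicator fun x =>
    fderiv ℝ (fderiv ℝ u) x (bv i) (bv j), fun i j => ?_, fun i j φ hφ hφc hφs => ?_, ?_⟩
  · exact ((h2 (bv i) (bv j)).1.integrable_indicator hS).integrableOn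
  · rw [(h2 (bv i) (bv j)).2.2 φ hφ hφc hφs, ← integral_indicator hS]
    congr 1
    refine integral_congr_ae (Eventually.of_forall fun x => ?_)
    simp only [indicator]
    split_ifs
    · rfl
    · rw [smul_zero]
  · refine le_trans ?_ e1
    have e6 : ∀ x, ENNReal.ofReal (Real.sqrt (∑ i : Fin (1 + 2), ∑ j : Fin (1 + 2),
        ‖(ball (0 : V) 1 ∩ U).indicator (fun x => fderiv ℝ (fderiv ℝ u) x (bv i) (bv j)) x‖ ^ 2)) =
        (ball (0 : V) 1 ∩ U).indicator (fun x => ENNReal.ofReal (Real.sqrt (hsq u x))) x := by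
      intro x
      by_cases hx : x ∈ ball (0 : V) 1 ∩ U
      · simp only [indicator_of_mem hx]
        rfl
      · simp only [indicator_of_notMem hx]
        simp
    simp only [e6]
    refine (setLIntegral_le_lintegral _ _).trans (le_of_eq ?_)
    rw [lintegral_indicator hS]
    rfl

end Pool.Agent.H60.D3
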