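import Pool.Agent.H81.D3.Targets

/-!
# Board d3n_modules, row GST
-/

set_option autoImplicit false

namespace Pool.Agent.H60.D3

open MeasureTheory Set
open Pool.Agent.H83.G Pool.Agent.H81.D3
open scoped ENNReal NNReal RealInnerProductSpace

lemma gst_par {L N₁ : ℕ} {β : E 2 → ℂ} {C₀ C C₀' C' δ M cb₀ C₁ ε δ₁ Cb R A D H : ℝ} {w K n : ℕ}
    (h : Par L N₁ β C₀ C δ M cb₀ C₁ ε δ₁ Cb R A D H w K n) (hC₀ : C₀' ≤ C₀) (hC : C' ≤ C)
    (hC' : 1 ≤ C') (hδ : 0 < δ) (hH : 0 < H) (hD : 1 ≤ D) (hK : (1 : ℝ) ≤ K) :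
    Par L N₁ β C₀' C' δ M cb₀ C₁ ε δ₁ Cb R A D H w K n := by
  have hK0 : (0 : ℝ) < K := by linarith
  have hR0 : 0 < R := by linarith [h.R1]
  have hAR : 0 < A * R := mul_pos h.A0 hR0
  have hD0 : 0 < D := by linarith
  have hCb0 : 0 < Cb := by linarith [h.Cb1]
  have hRe : 0 < R ^ ε := Real.rpow_pos_of_pos hR0 _
  refine
    { hL := h.hL
      hE := h.hE
      cb := h.cb
      C1 := h.C1
      e0 := h.e0
      d1 := h.d1
      Cb1 := h.Cb1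
      R1 := h.R1
      A0 := h.A0
      n1 := h.n1
      KC := hC.trans h.KC
      KCb := h.KCb
      wK := h.wK
      up := h.up
      lo := ?_
      br := ?_
      Dl := ?_
      nd := h.nd }
  · refine le_trans ?_ h.lo
    refine mul_le_mul_of_nonneg_left (mul_le_mul_of_nonneg_right hC (by positivity))
      (Real.rpow_nonneg hK0.le _)
  · refine le_trans ?_ h.br
    have h1 : 0 ≤ (A * R / ((w : ℝ) ^ 2 * H)) ^ (-cb₀) := Real.rpow_nonneg (by positivity) _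
    have h2 : D ^ C₀' ≤ D ^ C₀ := Real.rpow_le_rpow_of_exponent_le hD hC₀
    have h3 : 0 ≤ D ^ C₀' := Real.rpow_nonneg hD0.le _
    refine mul_le_mul_of_nonneg_right (mul_le_mul_of_nonneg_right ?_ hRe.le) h1
    refine mul_le_mul (mul_le_mul_of_nonneg_right hC hCb0.le) h2 h3 ?_
    exact mul_nonneg (by linarith) hCb0.le
  · refine le_trans ?_ h.Dl
    have h2 : (K : ℝ) ^ (C₀' * δ) ≤ (K : ℝ) ^ (C₀ * δ) :=
      Real.rpow_le_rpow_of_exponent_le hK (mul_le_mul_of_nonneg_right hC₀ hδ.le)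
    have h3 : 0 ≤ (K : ℝ) ^ (C₀' * δ) := Real.rpow_nonneg hK0.le _
    refine mul_le_mul_of_nonneg_right ?_ (Nat.cast_nonneg n)
    refine mul_le_mul (mul_le_mul_of_nonneg_right (mul_le_mul_of_nonneg_right hC hCb0.le)
      hRe.le) h2 h3 ?_
    exact mul_nonneg (mul_nonneg (by linarith) hCb0.le) hRe.le

/-- GST: the step from `w` to `w K` -/
theorem pf_GST (hGSN : T_GSN) (hGSC : T_GSC) (hGSB : T_GSB) (hGSE : T_GSE) (hMON : T_MON) :
    T_GST := by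
  classical
  obtain ⟨Ca, hCa, h1⟩ := hGSN
  obtain ⟨Cc, hCc, h2⟩ := hGSC
  obtain ⟨E0, hE0⟩ : ∃ E0 : ℝ, E0 = Ca * Cc + Ca + 5 := ⟨_, rfl⟩
  have hCa0 : 0 < Ca := by linarith
  have hCc0 : 0 < Cc := by linarith
  have hCC : 0 < Ca * Cc := mul_pos hCa0 hCc0
  obtain ⟨C₀, hC₀⟩ : ∃ C₀ : ℝ, C₀ = 150 * E0 + Ca * Cc + Ca + Cc + 1 := ⟨_, rfl⟩
  have hE00 : 0 ≤ E0 := by rw [hE0]; linarith
  have x1 : Ca + 4 + Ca * Cc ≤ E0 := by rw [hE0]; linarith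
  have x2 : Ca * Cc + 1 ≤ E0 := by rw [hE0]; linarith
  have x3 : 1 + Ca ≤ E0 := by rw [hE0]; linarith
  have x4 : Ca ≤ E0 := by rw [hE0]; linarith
  have y1 : 150 * E0 + Ca * Cc ≤ C₀ := by rw [hC₀]; linarith
  have y2 : 1 + 150 * E0 ≤ C₀ := by rw [hC₀]; linarith
  have y3 : Ca * Cc ≤ C₀ := by rw [hC₀]; linarith
  have hC₀1 : 1 ≤ C₀ := by linarith
  have hC₀0 : 0 ≤ C₀ := by linarith
  have hC₀a : Ca ≤ C₀ := by rw [hC₀]; linarith
  have hC₀c : Cc ≤ C₀ := by rw [hC₀]; linarith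
  refine ⟨C₀, hC₀1, fun L N₁ β δ M hL hβ hδ hδ1 hM => ?_⟩
  obtain ⟨Na, h3⟩ := h1 L N₁ β δ M hL hβ hδ hδ1 hM
  obtain ⟨Nc, h4⟩ := h2 L β δ M hL hβ hδ hδ1 hM
  obtain ⟨C1, hC1, h5⟩ := h3 (max Na Nc) (le_max_left _ _)
  obtain ⟨C2, hC2, h6⟩ := h4 (max Na Nc) (le_max_right _ _)
  obtain ⟨C3, hC3, h7⟩ := hGSB L β hL hβ
  obtain ⟨C, hC⟩ : ∃ C : ℝ, C = C1 + C2 + C3 := ⟨_, rfl⟩
  have hCC1 : C1 ≤ C := by linarith
  have hCC2 : C2 ≤ C := by linarith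
  have hCC3 : C3 ≤ C := by linarith
  have hC0 : 1 ≤ C := by linarith
  refine ⟨C, hC0, ?_⟩
  intro cb₀ C₁ ε δ₁ Cb R A H₀ D H G X w K n P Q hPar hH₀ hG hX hEn hSt
  have hD1 : 1 ≤ D := hSt.D1
  have hH : 0 < H := hSt.H0
  have hw : 1 ≤ w := hSt.w1
  have hK : 1 ≤ K := by
    by_contra hcon
    have hK0 : K = 0 := by omega
    have h8 := hPar.KC
    rw [hK0, Nat.cast_zero, Real.zero_rpow hδ.ne'] at h8
    linarith
  have hK1 : (1 : ℝ) ≤ K := by exact_mod_cast hK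
  have hw1 : (1 : ℝ) ≤ w := by exact_mod_cast hw
  have hD0 : 0 < D := by linarith
  have hR1 := hPar.R1
  have hA := hPar.A0
  have hR0 : 0 < R := by linarith
  have hRe : 1 ≤ R ^ ε := Real.one_le_rpow hR1 hPar.e0.le
  have hCb := hPar.Cb1
  have hn : (1 : ℝ) ≤ n := by exact_mod_cast hPar.n1
  have hKd : ∀ x : ℝ, 0 ≤ x → 1 ≤ (K : ℝ) ^ (x * δ) := fun x hx =>
    Real.one_le_rpow hK1 (mul_nonneg hx hδ.le)
  -- consequences of `Dl`
  have hDl : C * Cb * R ^ ε * (K : ℝ) ^ (C₀ * δ) * n ≤ D := hPar.Dl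
  have hCbD : C * Cb * R ^ ε ≤ D := by
    refine le_trans ?_ hDl
    have h8 : 0 ≤ C * Cb * R ^ ε := by positivity
    calc C * Cb * R ^ ε = C * Cb * R ^ ε * 1 * 1 := by ring
      _ ≤ C * Cb * R ^ ε * (K : ℝ) ^ (C₀ * δ) * n :=
          mul_le_mul (mul_le_mul_of_nonneg_left (hKd C₀ hC₀0) h8) hn (by norm_num)
            (mul_nonneg h8 (zero_le_one.trans (hKd C₀ hC₀0)))
  have hCD : C ≤ D := by
    refine le_trans ?_ hCbD
    calc C = C * 1 * 1 := by ring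
      _ ≤ C * Cb * R ^ ε :=
          mul_le_mul (mul_le_mul_of_nonneg_left hCb (by linarith)) hRe (by norm_num)
            (by positivity)
  have hKD : C2 * (K : ℝ) ^ (Cc * δ) ≤ D := by
    refine le_trans ?_ hDl
    have h8 : (K : ℝ) ^ (Cc * δ) ≤ (K : ℝ) ^ (C₀ * δ) :=
      Real.rpow_le_rpow_of_exponent_le hK1 (mul_le_mul_of_nonneg_right hC₀c hδ.le)
    have h9 : 0 < (K : ℝ) ^ (Cc * δ) := Real.rpow_pos_of_pos (by linarith) _
    have h10 : 0 < (K : ℝ) ^ (C₀ * δ) := Real.rpow_pos_of_pos (by linarith) _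
    have h11 : C2 ≤ C * Cb * R ^ ε := by
      calc C2 ≤ C := hCC2
        _ = C * 1 * 1 := by ring
        _ ≤ C * Cb * R ^ ε :=
          mul_le_mul (mul_le_mul_of_nonneg_left hCb (by linarith)) hRe (by norm_num)
            (by positivity)
    calc C2 * (K : ℝ) ^ (Cc * δ) = C2 * (K : ℝ) ^ (Cc * δ) * 1 := (mul_one _).symm
      _ ≤ C * Cb * R ^ ε * (K : ℝ) ^ (C₀ * δ) * n :=
          mul_le_mul (mul_le_mul h11 h8 h9.le (by positivity)) hn (by norm_num) (by positivity)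
  -- the node data
  obtain ⟨a, k, Q₁, Wf, V, hNd⟩ := h5 cb₀ C₁ ε δ₁ Cb R A H₀ D H G X w K n P Q
    (gst_par hPar hC₀a hCC1 hC1 hδ hH hD1 hK1) hH₀ hG hX hEn hSt
  obtain ⟨D1, hD1d⟩ : ∃ D1 : ℝ, D1 = D ^ Ca := ⟨_, rfl⟩
  rw [← hD1d] at hNd
  have hDD1 : D ≤ D1 := by
    rw [hD1d]
    calc D = D ^ (1 : ℝ) := (Real.rpow_one D).symm
      _ ≤ D ^ Ca := Real.rpow_le_rpow_of_exponent_le hD1 hCa
  have hD11 : 1 ≤ D1 := hD1.trans hDD1
  obtain ⟨hSt1, hQne⟩ := hMON.1 β G (En43 A R G) H₀ D D1 X w H P Q hEn hDD1 hSt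
  obtain ⟨P', Q', g1, g2, g3, g4, g5, g6, g7, g8, g9⟩ := h6 R A (En43 A R G) H₀ D1 H a k G X w K n
    P Q Q₁ Wf V hR1 hA (hCC2.trans hPar.KC) hPar.wK hPar.up (hKD.trans hDD1) hG hX hSt1 hNd
  -- numbers
  obtain ⟨Le, hLe⟩ : ∃ Le : ℝ, Le = D ^ E0 := ⟨_, rfl⟩
  have hmono : ∀ x y : ℝ, x ≤ y → D ^ x ≤ D ^ y := fun x y h =>
    Real.rpow_le_rpow_of_exponent_le hD1 h
  have hpos : ∀ x : ℝ, 0 < D ^ x := fun x => Real.rpow_pos_of_pos hD0 x
  have hone : ∀ x : ℝ, 0 ≤ x → 1 ≤ D ^ x := fun x hx => Real.one_le_rpow hD1 hx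
  have hD1c : D1 ^ Cc = D ^ (Ca * Cc) := by rw [hD1d, ← Real.rpow_mul hD0.le]
  have hLe1 : 1 ≤ Le := by
    rw [hLe]
    exact hone _ hE00
  have hK0 : (0 : ℝ) < K := by linarith
  have ha : 0 < a := lt_of_lt_of_le (mul_pos (Real.rpow_pos_of_pos hK0 _) hH) hNd.a0
  have hC20 : 0 < C2 := by linarith
  obtain ⟨H', hH'd⟩ : ∃ H' : ℝ, H' = a / C2 := ⟨_, rfl⟩
  have hH' : 0 < H' := by rw [hH'd]; positivity
  have haH : a = C2 * H' := by rw [hH'd]; field_simp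
  have hQ₁ : Q₁.Nonempty := by
    rw [Finset.nonempty_iff_ne_empty]
    rintro rfl
    have h8 := hNd.pop
    rw [Finset.card_empty, Nat.cast_zero, mul_zero] at h8
    have h9 : 0 < Q.card := Finset.card_pos.2 hQne
    have h10 : (0 : ℝ) < Q.card := by exact_mod_cast h9
    linarith
  have hq : (0 : ℝ) < Q₁.card := by exact_mod_cast Finset.card_pos.2 hQ₁
  have hC2D : C2 ≤ D := hCC2.trans hCD
  have hC24 : C2 ^ 4 ≤ D ^ (4 : ℝ) := by
    have h8 : C2 ^ 4 ≤ D ^ 4 := pow_le_pow_left₀ hC20.le hC2D 4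
    have h9 : D ^ (4 : ℝ) = D ^ 4 := by
      rw [← Real.rpow_natCast]
      norm_num
    rw [h9]
    exact h8
  -- the number of packets
  obtain ⟨T, hT⟩ : ∃ T : ℝ, T = ∑ i ∈ Ti P, ((Wf i).card : ℝ) := ⟨_, rfl⟩
  have hT0 : 0 ≤ T := by
    rw [hT]
    exact Finset.sum_nonneg fun i _ => Nat.cast_nonneg _
  have hTn : T ≤ D ^ (Ca * Cc) * P'.card := by
    rw [hT, ← hD1c]
    exact g6
  have hwK0 : (0 : ℝ) < (w : ℝ) * K := by positivity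
  have hW4 : 0 ≤ (P'.card : ℝ) * ((w : ℝ) * K) ^ 4 :=
    mul_nonneg (Nat.cast_nonneg _) (pow_nonneg hwK0.le 4)
  have hE2 : 0 ≤ H' ^ 2 * ((P'.card : ℝ) * ((w : ℝ) * K) ^ 4) := mul_nonneg (sq_nonneg _) hW4
  have e2 : (Q₁.card : ℝ) * H ^ 2 ≤ Le * (H' ^ 2 * (P'.card * ((w : ℝ) * K) ^ 4)) := by
    have h8 := hNd.rd 2 (Or.inl rfl)
    rw [← hT] at h8
    have h9 : k ^ ((2 : ℝ) / 2 - 1) = 1 := by
      rw [show (2 : ℝ) / 2 - 1 = 0 by norm_num, Real.rpow_zero]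
    rw [h9, mul_one, show H ^ (2 : ℝ) = H ^ 2 from Real.rpow_natCast H 2,
      show a ^ (2 : ℝ) = a ^ 2 from Real.rpow_natCast a 2] at h8
    refine h8.trans ?_
    rw [haH, hD1d]
    calc D ^ Ca * (C2 * H') ^ 2 * T * ((w : ℝ) * K) ^ 4
        = D ^ Ca * C2 ^ 2 * (H' ^ 2 * (T * ((w : ℝ) * K) ^ 4)) := by ring
      _ ≤ D ^ Ca * D ^ (4 : ℝ) * (H' ^ 2 * ((D ^ (Ca * Cc) * P'.card) * ((w : ℝ) * K) ^ 4)) := by
          have h10 : C2 ^ 2 ≤ D ^ (4 : ℝ) :=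
            (pow_le_pow_right₀ hC2 (by norm_num)).trans hC24
          refine mul_le_mul (mul_le_mul_of_nonneg_left h10 (hpos _).le) ?_ (by positivity)
            (mul_pos (hpos _) (hpos _)).le
          exact mul_le_mul_of_nonneg_left (mul_le_mul_of_nonneg_right hTn (by positivity))
            (by positivity)
      _ = D ^ (Ca + 4 + Ca * Cc) * (H' ^ 2 * (P'.card * ((w : ℝ) * K) ^ 4)) := by
          rw [Real.rpow_add hD0, Real.rpow_add hD0]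
          ring
      _ ≤ _ := by
          rw [hLe]
          exact mul_le_mul_of_nonneg_right (hmono _ _ x1) hE2
  have e7 : (Q₁.card : ℝ) * H ^ (7 / 2 : ℝ) ≤ Le * (k ^ (3 / 4 : ℝ) * (H' ^ (7 / 2 : ℝ) *
      (P'.card * ((w : ℝ) * K) ^ 4))) := by
    have h8 := hNd.rd (7 / 2) (Or.inr rfl)
    rw [← hT, show (7 : ℝ) / 2 / 2 - 1 = 3 / 4 by norm_num] at h8
    refine h8.trans ?_
    have hk : 0 ≤ k ^ (3 / 4 : ℝ) := Real.rpow_nonneg (by linarith [hNd.k1]) _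
    have hH7 : 0 ≤ H' ^ (7 / 2 : ℝ) := Real.rpow_nonneg hH'.le _
    have hE7 : 0 ≤ k ^ (3 / 4 : ℝ) * (H' ^ (7 / 2 : ℝ) * ((P'.card : ℝ) * ((w : ℝ) * K) ^ 4)) :=
      mul_nonneg hk (mul_nonneg hH7 hW4)
    rw [haH, hD1d, Real.mul_rpow hC20.le hH'.le]
    have h10 : C2 ^ (7 / 2 : ℝ) ≤ D ^ (4 : ℝ) := by
      refine le_trans ?_ hC24
      rw [← Real.rpow_natCast]
      exact Real.rpow_le_rpow_of_exponent_le hC2 (by norm_num)
    have h11 : 0 ≤ C2 ^ (7 / 2 : ℝ) := Real.rpow_nonneg hC20.le _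
    calc D ^ Ca * k ^ (3 / 4 : ℝ) * (C2 ^ (7 / 2 : ℝ) * H' ^ (7 / 2 : ℝ)) * T *
          ((w : ℝ) * K) ^ 4
        = D ^ Ca * C2 ^ (7 / 2 : ℝ) * (k ^ (3 / 4 : ℝ) * (H' ^ (7 / 2 : ℝ) *
          (T * ((w : ℝ) * K) ^ 4))) := by ring
      _ ≤ D ^ Ca * D ^ (4 : ℝ) * (k ^ (3 / 4 : ℝ) * (H' ^ (7 / 2 : ℝ) *
          ((D ^ (Ca * Cc) * P'.card) * ((w : ℝ) * K) ^ 4))) := by
          refine mul_le_mul (mul_le_mul_of_nonneg_left h10 (hpos _).le) ?_ (by positivity)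
            (mul_pos (hpos _) (hpos _)).le
          exact mul_le_mul_of_nonneg_left (mul_le_mul_of_nonneg_left
            (mul_le_mul_of_nonneg_right hTn (by positivity)) hH7) hk
      _ = D ^ (Ca + 4 + Ca * Cc) * (k ^ (3 / 4 : ℝ) * (H' ^ (7 / 2 : ℝ) *
          (P'.card * ((w : ℝ) * K) ^ 4))) := by
          rw [Real.rpow_add hD0, Real.rpow_add hD0]
          ring
      _ ≤ _ := by
          rw [hLe]
          exact mul_le_mul_of_nonneg_right (hmono _ _ x1) hE7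
  have hcast : (((w * K : ℕ) : ℝ)) = (w : ℝ) * K := by push_cast; ring
  have eB : (P'.card : ℝ) * ((w : ℝ) * K) ^ 4 * (H' ^ (10 / 3 : ℝ) * ((w : ℝ) * K) ^ (2 / 3 : ℝ)) ≤
      Le * En43 A R G := by
    have h8 := h7 ε Cb R A (D1 ^ Cc) H' (w * K) G P' hPar.hE hPar.e0 hCb hR1 hA hH'
      (Real.one_le_rpow hD11 hCc0.le) (Nat.mul_pos hw hK)
      (by rw [hcast]; exact hPar.wK) hG g2 g3 (by rw [hH'd]; exact g1)
    rw [hcast, hD1c] at h8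
    calc (P'.card : ℝ) * ((w : ℝ) * K) ^ 4 * (H' ^ (10 / 3 : ℝ) * ((w : ℝ) * K) ^ (2 / 3 : ℝ))
        = (P'.card : ℝ) * ((w : ℝ) * K) ^ 4 * H' ^ (10 / 3 : ℝ) *
          ((w : ℝ) * K) ^ (2 / 3 : ℝ) := by ring
      _ ≤ C3 * D ^ (Ca * Cc) * Cb * R ^ ε * En43 A R G := h8
      _ = D ^ (Ca * Cc) * (C3 * Cb * R ^ ε) * En43 A R G := by ring
      _ ≤ D ^ (Ca * Cc) * D * En43 A R G := by
          refine mul_le_mul_of_nonneg_right (mul_le_mul_of_nonneg_left ?_ (hpos _).le) hEn.le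
          refine le_trans ?_ hCbD
          exact mul_le_mul_of_nonneg_right (mul_le_mul_of_nonneg_right hCC3 (by linarith))
            (by linarith)
      _ = D ^ (Ca * Cc + 1) * En43 A R G := by
          rw [Real.rpow_add hD0, Real.rpow_one]
      _ ≤ _ := by
          rw [hLe]
          exact mul_le_mul_of_nonneg_right (hmono _ _ x2) hEn.le
  have eL : En43 A R G ≤ Le * (Q₁.card * H ^ (10 / 3 : ℝ) * (w : ℝ) ^ (2 / 3 : ℝ)) := by
    have h8 : 0 ≤ H ^ (10 / 3 : ℝ) := Real.rpow_nonneg hH.le _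
    have h9 : 0 ≤ (w : ℝ) ^ (2 / 3 : ℝ) := Real.rpow_nonneg (by linarith) _
    have hEL : 0 ≤ (Q₁.card : ℝ) * H ^ (10 / 3 : ℝ) * (w : ℝ) ^ (2 / 3 : ℝ) :=
      mul_nonneg (mul_nonneg (Nat.cast_nonneg _) h8) h9
    calc En43 A R G ≤ D * (Q.card * H ^ (10 / 3 : ℝ) * (w : ℝ) ^ (2 / 3 : ℝ)) := hSt.low
      _ ≤ D * ((D1 * Q₁.card) * H ^ (10 / 3 : ℝ) * (w : ℝ) ^ (2 / 3 : ℝ)) :=
          mul_le_mul_of_nonneg_left (mul_le_mul_of_nonneg_right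
            (mul_le_mul_of_nonneg_right hNd.pop h8) h9) hD0.le
      _ = D ^ (1 + Ca) * (Q₁.card * H ^ (10 / 3 : ℝ) * (w : ℝ) ^ (2 / 3 : ℝ)) := by
          rw [Real.rpow_add hD0, Real.rpow_one, hD1d]
          ring
      _ ≤ _ := by
          rw [hLe]
          exact mul_le_mul_of_nonneg_right (hmono _ _ x3) hEL
  have ek : k ≤ Le * K := by
    obtain ⟨q, hqQ⟩ := hQ₁
    have h8 := (hNd.kl q hqQ).trans (hNd.ku q hqQ)
    refine h8.trans (mul_le_mul_of_nonneg_right ?_ hK0.le)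
    rw [hD1d, hLe]
    exact hmono _ _ x4
  obtain ⟨r1, r2, r3⟩ := hGSE Le H H' k K w Q₁.card P'.card (En43 A R G) hLe1 hH hH' hNd.k1 hK1
    hw1 hq (Nat.cast_nonneg _) ek e2 e7 eB eL
  have hLe150 : Le ^ 150 = D ^ (150 * E0) := by
    rw [hLe, ← Real.rpow_natCast, ← Real.rpow_mul hD0.le]
    congr 1
    push_cast
    ring
  have hD1C₀ : D1 ^ Cc ≤ D ^ C₀ := by
    rw [hD1c]
    exact hmono _ _ y3
  refine ⟨H', P', Q', V, ?_, hNd.vn, g7, g8, fun z t => ?_⟩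
  · refine
      { w1 := Nat.mul_pos hw hK
        D1 := hone _ (by linarith)
        H0 := hH'
        pk := ?_
        sep := g2
        tg := fun κ => (g3 κ).trans hD1C₀
        rel := fun q hq => ⟨(g4 q hq).1, (g4 q hq).2.1, (g4 q hq).2.2.trans hD1C₀⟩
        low := ?_
        lev1 := ?_
        lev2 := ?_ }
    · rw [hH'd]
      exact g1
    · rw [hcast]
      have h8 : 0 ≤ H' ^ (10 / 3 : ℝ) := Real.rpow_nonneg hH'.le _
      have h9 : 0 ≤ ((w : ℝ) * K) ^ (2 / 3 : ℝ) := Real.rpow_nonneg hwK0.le _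
      have hElow : 0 ≤ (Q'.card : ℝ) * H' ^ (10 / 3 : ℝ) * ((w : ℝ) * K) ^ (2 / 3 : ℝ) :=
        mul_nonneg (mul_nonneg (Nat.cast_nonneg _) h8) h9
      calc En43 A R G ≤ Le ^ 150 * (k * Q₁.card * H' ^ (10 / 3 : ℝ) *
            ((w : ℝ) * K) ^ (2 / 3 : ℝ)) := r1
        _ ≤ D ^ (150 * E0) * ((D ^ (Ca * Cc) * Q'.card) * H' ^ (10 / 3 : ℝ) *
            ((w : ℝ) * K) ^ (2 / 3 : ℝ)) := by
            rw [hLe150, ← hD1c]
            exact mul_le_mul_of_nonneg_left (mul_le_mul_of_nonneg_right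
              (mul_le_mul_of_nonneg_right g5 h8) h9) (hpos _).le
        _ = D ^ (150 * E0 + Ca * Cc) * (Q'.card * H' ^ (10 / 3 : ℝ) *
            ((w : ℝ) * K) ^ (2 / 3 : ℝ)) := by
            rw [Real.rpow_add hD0]
            ring
        _ ≤ _ := by
            exact mul_le_mul_of_nonneg_right (hmono _ _ y1) hElow
    · rw [hcast]
      calc H₀ ^ 2 ≤ D * (H ^ 2 * w) := hSt.lev1
        _ ≤ D * (Le ^ 150 * (H' ^ 2 * ((w : ℝ) * K))) := mul_le_mul_of_nonneg_left r2 hD0.le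
        _ = D ^ (1 + 150 * E0) * (H' ^ 2 * ((w : ℝ) * K)) := by
            rw [Real.rpow_add hD0, Real.rpow_one, hLe150]
            ring
        _ ≤ _ := by
            exact mul_le_mul_of_nonneg_right (hmono _ _ y2) (by positivity)
    · rw [hcast]
      calc H' ^ 2 * ((w : ℝ) * K) ≤ Le ^ 150 * (H ^ 2 * w) := r3
        _ ≤ Le ^ 150 * (D * H₀ ^ 2) := mul_le_mul_of_nonneg_left hSt.lev2 (by positivity)
        _ = D ^ (1 + 150 * E0) * H₀ ^ 2 := by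
            rw [Real.rpow_add hD0, Real.rpow_one, hLe150]
            ring
        _ ≤ _ := by
            exact mul_le_mul_of_nonneg_right (hmono _ _ y2) (by positivity)
  · refine (g9 z t).trans ?_
    refine mul_le_mul_of_nonneg_right (mul_le_mul_of_nonneg_right hD1C₀ hK0.le)
      (Nat.cast_nonneg _)

end Pool.Agent.H60.D3
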