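import Pool.Agent.H81.D3.Targets

/-!
# Board d3n_modules, row ST0
-/

set_option autoImplicit false

namespace Pool.Agent.H60.D3

open MeasureTheory Set
open Pool.Agent.H83.G Pool.Agent.H81.D3
open scoped ENNReal NNReal RealInnerProductSpace

lemma st0_int {F : Z 2 → ℂ} (hF : TC F) (z : Z 2) :
    Integrable (fun ζ : Z 2 => e (ph z ζ) * F ζ) := by
  have h1 : Continuous (fun ζ : Z 2 => e (ph z ζ)) := by
    unfold e ph
    fun_prop
  refine (h1.mul hF.1.continuous).integrable_of_hasCompactSupport ?_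
  exact hF.2.mul_left

/-- the decomposition in caps -/
lemma st0_sum (hPUS : T_PUS) (hCPS : T_CPS) (L : ℕ) (β : E 2 → ℂ) (hβ : IsPU β) (R A s : ℝ)
    (G : Z 2 → ℂ) (hG : Cls L (1 / 4) R A G) (hs : 0 < s) (hs1 : s ≤ 1) (z : Z 2) :
    TF G z = ∑ κ ∈ Ks 2 s, TP β (ctr s κ) s G z := by
  have hlow : ∀ ζ, G ζ ≠ 0 → 1 / 4 ≤ ζ.1 := by
    intro ζ hζ
    have := (hG.2.1 ζ hζ).1
    linarith
  have hTC : ∀ κ, TC (fun ζ => cp β (ctr s κ) s ζ * G ζ) := fun κ =>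
    hCPS 2 β (ctr s κ) s G hβ.1 hs hG.1 hlow
  have h1 : ∀ ζ, G ζ = ∑ κ ∈ Ks 2 s, cp β (ctr s κ) s ζ * G ζ := by
    intro ζ
    by_cases hζ : G ζ = 0
    · simp [hζ]
    · have h2 : ‖ζ.1⁻¹ • ζ.2.1‖ ≤ 3 / 2 := by
        obtain ⟨r1, -, r3, -⟩ := hG.2.1 ζ hζ
        have h3 : 0 < ζ.1 := by linarith
        rw [norm_smul, norm_inv, Real.norm_of_nonneg h3.le, ← div_eq_inv_mul, div_le_iff₀ h3]
        nlinarith
      rw [← Finset.sum_mul, ((hPUS 2).1 β s hβ hs).2 hs1 ζ h2, one_mul]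
  have h2 : (fun ζ : Z 2 => e (ph z ζ) * G ζ) = fun ζ => ∑ κ ∈ Ks 2 s,
      e (ph z ζ) * (cp β (ctr s κ) s ζ * G ζ) := by
    funext ζ
    conv_lhs => rw [h1 ζ]
    rw [Finset.mul_sum]
  unfold TP TF
  rw [h2, integral_finset_sum _ fun κ _ => st0_int (hTC κ) z]

/-- ST0: the start -/
theorem pf_ST0 (hPUS : T_PUS) (hRSE : T_RSE) (hCMP : T_CMP) (hPTS : T_PTS) (hCPS : T_CPS) :
    T_ST0 := by
  classical
  intro L β hL hβ
  obtain ⟨s, hs⟩ : ∃ s : ℝ, s = ((1 : ℕ) : ℝ)⁻¹ := ⟨_, rfl⟩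
  have hs1 : s = 1 := by rw [hs]; norm_num
  obtain ⟨Cr, -, hr⟩ := hRSE L β hβ
  obtain ⟨Cp, -, -, -, hpts⟩ := hPTS
  obtain ⟨C, hC⟩ : ∃ C : ℝ, C = (Ks 2 s).card + 1 := ⟨_, rfl⟩
  have hC1 : 1 ≤ C := by
    rw [hC]
    have : (0 : ℝ) ≤ (Ks 2 s).card := Nat.cast_nonneg _
    linarith
  have hC0 : 0 < C := by linarith
  refine ⟨C, hC1, fun R A H D G X hR hA hH hD hG hX hz hlow => ?_⟩
  have hTF : ∀ (κ : Fin 2 → ℤ) (z : Z 2), TF (Gc β 1 G κ) (Lc 1 κ z) =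
      TP β (ctr s κ) s G z := by
    intro κ z
    have h1 := (hr (1 / 4) R A s (ctr s κ) G (by norm_num) (by norm_num) hA (by rw [hs1]; norm_num)
      hs1.le (by rw [hs1]; linarith) hG).2.1 z
    unfold Gc Lc
    rw [← hs]
    exact h1
  have hex : ∀ z : Z 2, ∃ κ : Fin 2 → ℤ, z ∈ X → κ ∈ Ks 2 s ∧
      H / C ≤ ‖TF (Gc β 1 G κ) (Lc 1 κ z)‖ := by
    intro z
    by_cases hzX : z ∈ X
    · by_contra hcon
      have h1 : ∀ κ ∈ Ks 2 s, ‖TP β (ctr s κ) s G z‖ ≤ H / C := by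
        intro κ hκ
        by_contra h2
        rw [not_le] at h2
        refine hcon ⟨κ, fun _ => ⟨hκ, ?_⟩⟩
        rw [hTF]
        exact h2.le
      have h3 : H ≤ ‖TF G z‖ := hz z hzX
      rw [st0_sum hPUS hCPS L β hβ R A s G hG (by rw [hs1]; norm_num) hs1.le z] at h3
      have h4 : ‖∑ κ ∈ Ks 2 s, TP β (ctr s κ) s G z‖ ≤ (Ks 2 s).card * (H / C) := by
        refine (norm_sum_le _ _).trans ((Finset.sum_le_sum h1).trans ?_)
        rw [Finset.sum_const, nsmul_eq_mul]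
      have h5 : ((Ks 2 s).card : ℝ) * (H / C) < H := by
        rw [mul_div_assoc', div_lt_iff₀ hC0, hC]
        nlinarith
      linarith
    · exact ⟨0, fun h => absurd h hzX⟩
  choose κ hκ using hex
  choose Y' hY'1 hY'2 hY'3 using fun k : Fin 2 → ℤ =>
    hpts ((X.filter fun z => κ z = k).image fun z => Lc 1 k z)
  have hxex : ∀ z : Z 2, ∃ x : Z 2, z ∈ X → x ∈ Y' (κ z) ∧ ‖Lc 1 (κ z) z - x‖ ≤ 1 := by
    intro z
    by_cases hzX : z ∈ X
    · obtain ⟨x, hx1, hx2⟩ := hY'3 (κ z) (Lc 1 (κ z) z) (Finset.mem_image.2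
        ⟨z, Finset.mem_filter.2 ⟨hzX, rfl⟩, rfl⟩)
      exact ⟨x, fun _ => ⟨hx1, hx2⟩⟩
    · exact ⟨0, fun h => absurd h hzX⟩
  choose x hx using hxex
  set P : Finset Pq := (Ks 2 s).biUnion fun k => (Y' k).image fun y => ((0 : Fin 2 → ℤ), k, y)
    with hP
  set Q : Finset (Z 2 × Pq) := X.image fun z => (z, ((0 : Fin 2 → ℤ), κ z, x z)) with hQ
  have memP : ∀ p ∈ P, p.1 = 0 ∧ p.2.1 ∈ Ks 2 s ∧ p.2.2 ∈ Y' p.2.1 := by
    intro p hp
    rw [hP, Finset.mem_biUnion] at hp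
    obtain ⟨k, hk, hp⟩ := hp
    rw [Finset.mem_image] at hp
    obtain ⟨y, hy, rfl⟩ := hp
    exact ⟨rfl, hk, hy⟩
  have hcard : Q.card = X.card := Finset.card_image_of_injective _ fun z z' h =>
    congrArg Prod.fst h
  have hCD : 1 ≤ C ^ 4 * D := one_le_mul_of_one_le_of_one_le (one_le_pow₀ hC1) hD
  have hD0 : 0 < D := by linarith
  have hC4 : 1 ≤ C ^ 4 := one_le_pow₀ hC1
  have hC2 : C ^ 2 ≤ C ^ 4 := pow_le_pow_right₀ hC1 (by norm_num)
  refine ⟨P, Q, ?_, ?_, fun p hp => (memP p hp).1⟩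
  · refine
      { w1 := le_rfl
        D1 := hCD
        H0 := by positivity
        pk := ?_
        sep := ?_
        tg := ?_
        rel := ?_
        low := ?_
        lev1 := ?_
        lev2 := ?_ }
    · intro p hp
      obtain ⟨-, h2, h3⟩ := memP p hp
      rw [← hs]
      refine ⟨h2, ?_⟩
      obtain ⟨z, hz1, hz2⟩ := Finset.mem_image.1 (hY'1 p.2.1 h3)
      obtain ⟨hz3, hz4⟩ := Finset.mem_filter.1 hz1
      have h5 := (hκ z hz3).2
      rw [hz4] at h5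
      change Lc 1 p.2.1 z = p.2.2 at hz2
      rw [← hz2]
      exact h5
    · intro p hp p' hp' hne h1 h2
      obtain ⟨-, -, h3⟩ := memP p hp
      obtain ⟨-, -, h4⟩ := memP p' hp'
      refine hY'2 p.2.1 p.2.2 h3 p'.2.2 (by rw [h2]; exact h4) fun h5 => hne ?_
      exact Prod.ext h1 (Prod.ext h2 h5)
    · intro k
      refine le_trans ?_ hCD
      have h1 : ((P.filter fun p => p.2.1 = k).image fun p => p.1) ⊆ {(0 : Fin 2 → ℤ)} := by
        intro t ht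
        obtain ⟨p, hp, rfl⟩ := Finset.mem_image.1 ht
        rw [Finset.mem_singleton]
        exact (memP p (Finset.mem_filter.1 hp).1).1
      have h2 := Finset.card_le_card h1
      rw [Finset.card_singleton] at h2
      have h3 : ((((P.filter fun p => p.2.1 = k).image fun p => p.1).card : ℕ) : ℝ) ≤ 1 := by
        exact_mod_cast h2
      exact h3
    · intro q hq
      obtain ⟨z, hzX, rfl⟩ := Finset.mem_image.1 hq
      obtain ⟨h1, h2⟩ := hx z hzX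
      refine ⟨hzX, ?_, h2.trans hCD⟩
      rw [hP, Finset.mem_biUnion]
      exact ⟨κ z, (hκ z hzX).1, Finset.mem_image.2 ⟨x z, h1, rfl⟩⟩
    · rw [hcard, Nat.cast_one, Real.one_rpow, mul_one, Real.div_rpow hH.le hC0.le]
      have h1 : C ^ (10 / 3 : ℝ) ≤ C ^ 4 := by
        rw [← Real.rpow_natCast]
        exact Real.rpow_le_rpow_of_exponent_le hC1 (by norm_num)
      have h2 : 0 < C ^ (10 / 3 : ℝ) := Real.rpow_pos_of_pos hC0 _
      have h3 : 0 ≤ H ^ (10 / 3 : ℝ) := Real.rpow_nonneg hH.le _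
      calc En43 A R G ≤ D * (X.card * H ^ (10 / 3 : ℝ)) := hlow
        _ = C ^ (10 / 3 : ℝ) * D * (X.card * (H ^ (10 / 3 : ℝ) / C ^ (10 / 3 : ℝ))) := by
            field_simp
        _ ≤ C ^ 4 * D * (X.card * (H ^ (10 / 3 : ℝ) / C ^ (10 / 3 : ℝ))) := by
            refine mul_le_mul_of_nonneg_right (mul_le_mul_of_nonneg_right h1 hD0.le) ?_
            positivity
    · rw [Nat.cast_one, mul_one, div_pow]
      have h1 : H ^ 2 = C ^ 2 * (H ^ 2 / C ^ 2) := by field_simp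
      calc H ^ 2 = C ^ 2 * (H ^ 2 / C ^ 2) := h1
        _ ≤ C ^ 4 * D * (H ^ 2 / C ^ 2) := by
            refine mul_le_mul_of_nonneg_right ?_ (by positivity)
            calc C ^ 2 ≤ C ^ 4 * 1 := by rw [mul_one]; exact hC2
              _ ≤ C ^ 4 * D := mul_le_mul_of_nonneg_left hD (by positivity)
    · rw [Nat.cast_one, mul_one, div_pow]
      calc H ^ 2 / C ^ 2 ≤ H ^ 2 / 1 :=
            div_le_div_of_nonneg_left (by positivity) (by norm_num) (one_le_pow₀ hC1)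
        _ = 1 * H ^ 2 := by ring
        _ ≤ C ^ 4 * D * H ^ 2 := mul_le_mul_of_nonneg_right hCD (by positivity)
  · intro z
    rw [Finset.card_le_one]
    intro a ha b hb
    unfold Qz1 at ha hb
    obtain ⟨ha1, ha2⟩ := Finset.mem_filter.1 ha
    obtain ⟨hb1, hb2⟩ := Finset.mem_filter.1 hb
    obtain ⟨z1, -, rfl⟩ := Finset.mem_image.1 ha1
    obtain ⟨z2, -, rfl⟩ := Finset.mem_image.1 hb1
    change z1 = z at ha2
    change z2 = z at hb2
    rw [ha2, hb2]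

end Pool.Agent.H60.D3
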