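import Pool.Agent.H87.D3.Targets2

/-! Board d3h_modules, row THN. -/

namespace Pool.Agent.H60.D3

open MeasureTheory Metric Set Filter Topology Pool.Agent.H87.SN Pool.Agent.H87.SH Pool.Agent.H87.AX
open Pool.Agent.H87.D3
open scoped ContDiff RealInnerProductSpace ENNReal

lemma thn_nsq {m : ℕ} (L : V →L[ℝ] E m) : 0 ≤ nsq L :=
  Finset.sum_nonneg fun i _ => sq_nonneg _

lemma thn_tz {m : ℕ} (L : V →L[ℝ] E m) : |tz L| ≤ nsq L := by
  have h0 : 0 ≤ nzs L := Finset.sum_nonneg fun i _ => sq_nonneg _
  have h1 : nzs L ≤ nsq L := by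
    unfold nzs nsq
    conv_rhs => rw [Fin.sum_univ_succ, Fin.sum_univ_succ]
    have h2 := sq_nonneg ‖L (bv 0)‖
    have h3 := sq_nonneg ‖L (bv (Fin.succ 0))‖
    linarith
  unfold tz
  rw [abs_le]
  constructor <;> linarith

lemma thn_norm (x : V) : ‖x‖ ^ 2 = rho x ^ 2 + x 2 ^ 2 := by
  unfold rho
  rw [Real.sq_sqrt (by positivity), EuclideanSpace.norm_sq_eq]
  change ∑ i : Fin 3, ‖x i‖ ^ 2 = _
  rw [Fin.sum_univ_three]
  simp only [Real.norm_eq_abs, sq_abs]

lemma thn_rho_nonneg (x : V) : 0 ≤ rho x := Real.sqrt_nonneg _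

lemma thn_rho_cont : Continuous (fun x : V => rho x) := by
  unfold rho
  fun_prop

lemma thn_coord (x : V) (j : Fin (1 + 2)) (hj : j ≠ 2) : |x j| ≤ rho x := by
  unfold rho
  refine Real.le_sqrt_of_sq_le ?_
  rw [sq_abs]
  have h : j = 0 ∨ j = 1 := by
    fin_cases j
    · exact Or.inl rfl
    · exact Or.inr rfl
    · exact absurd rfl hj
  rcases h with rfl | rfl
  · nlinarith [sq_nonneg (x 1)]
  · nlinarith [sq_nonneg (x 0)]

lemma thn_bw (z₀ r z : ℝ) (hr : 0 < r) :
    0 ≤ bw z₀ r z ∧ bw z₀ r z ≤ r⁻¹ ∧ (r ≤ |z - z₀| → bw z₀ r z = 0) := by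
  unfold bw
  refine ⟨mul_nonneg (inv_nonneg.2 hr.le) (le_max_left _ _), ?_, fun h => ?_⟩
  · have h1 : max 0 (1 - |(z - z₀) / r|) ≤ 1 := by
      refine max_le (by norm_num) ?_
      have := abs_nonneg ((z - z₀) / r)
      linarith
    calc r⁻¹ * max 0 (1 - |(z - z₀) / r|) ≤ r⁻¹ * 1 :=
          mul_le_mul_of_nonneg_left h1 (inv_nonneg.2 hr.le)
      _ = r⁻¹ := mul_one _
  · have h1 : 1 ≤ |(z - z₀) / r| := by
      rw [abs_div, abs_of_pos hr, le_div_iff₀ hr, one_mul]
      exact h
    rw [max_eq_left (by linarith), mul_zero]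

/-- the thin core and the rest -/
lemma thn_loc (x : V) (h rc z₀ r : ℝ) (h16 : h ≤ 1 / 16) (hz : |z₀| + r ≤ 9 / 16)
    (hρ : rho x < 2 * h) (hx : |x 2 - z₀| < r) : x ∈ ball (0 : V) (5 / 8) := by
  rw [mem_ball_zero_iff]
  have h1 := thn_norm x
  have h2 : |x 2| < 9 / 16 := by
    have h3 : |x 2| ≤ |x 2 - z₀| + |z₀| := by
      calc |x 2| = |(x 2 - z₀) + z₀| := by rw [sub_add_cancel]
        _ ≤ _ := abs_add_le _ _
    linarith
  have h3 : rho x < 1 / 8 := by linarith
  have h4 := thn_rho_nonneg x
  have h5 : rho x ^ 2 < (1 / 8) ^ 2 := pow_lt_pow_left₀ h3 h4 two_ne_zero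
  have h6 : x 2 ^ 2 < (9 / 16) ^ 2 := by
    rw [← sq_abs (x 2)]
    exact pow_lt_pow_left₀ h2 (abs_nonneg _) two_ne_zero
  have h7 : ‖x‖ ^ 2 < (5 / 8) ^ 2 := by
    rw [h1]
    linarith
  exact lt_of_pow_lt_pow_left₀ 2 (by norm_num) h7

/-- Mass of the thin core in a window; small moments. -/
theorem pf_THN (hMUF : T_MUF) (hCHF : T_CHF) : Pool.Agent.H87.D3.T_THN := by
  intro m G hG h rc hrc hrch h16
  obtain ⟨-, -, -, hmu, -, -⟩ := hMUF m G hG
  obtain ⟨C, -, hch⟩ := hCHF
  have h0 : 0 < h := by linarith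
  obtain ⟨-, hc1, -, hc3, -⟩ := hch h h0
  -- the outer part
  set S2 : Set V := {x : V | x ∈ ball 0 (5 / 8) ∧ rc ≤ rho x} with hS2
  have mS2 : MeasurableSet S2 :=
    measurableSet_ball.inter (measurableSet_le measurable_const thn_rho_cont.measurable)
  have sS2 : S2 ⊆ ball 0 2 := fun x hx => ball_subset_ball (by norm_num) hx.1
  have iS2 : IntegrableOn (fun x => nsq (G x)) S2 := (hmu S2 mS2 sS2).1
  have iB : IntegrableOn (fun x => nsq (G x)) (ball (0 : V) 2) :=
    (hmu _ measurableSet_ball subset_rfl).1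
  refine ⟨fun z₀ r c hr hz hms hoc => ?_, fun j hj z₀ hz => ?_⟩
  · set S1 : Set V := {x : V | rho x < rc ∧ |x 2 - z₀| < r} with hS1
    have mS1 : MeasurableSet S1 := by
      refine (measurableSet_lt thn_rho_cont.measurable measurable_const).inter ?_
      have h1 : Continuous fun x : V => |x 2 - z₀| := by fun_prop
      exact measurableSet_lt h1.measurable measurable_const
    have sS1 : S1 ⊆ ball 0 2 := by
      intro x hx
      exact ball_subset_ball (by norm_num)
        (thn_loc x h rc z₀ r h16 hz (by linarith [hx.1]) hx.2)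
    have iS1 : IntegrableOn (fun x => nsq (G x)) S1 := (hmu S1 mS1 sS1).1
    have ig : Integrable (fun x => r⁻¹ * (S1.indicator (fun x => nsq (G x)) x +
        S2.indicator (fun x => nsq (G x)) x)) (volume.restrict (ball (0 : V) 2)) :=
      (((iS1.integrable_indicator mS1).integrableOn (s := ball (0 : V) 2)).add
        ((iS2.integrable_indicator mS2).integrableOn (s := ball (0 : V) 2))).const_mul _
    have e1 : ms G h z₀ r ≤ r⁻¹ * ((∫ x in S1, nsq (G x)) + ∫ x in S2, nsq (G x)) := by
      have e2 := norm_integral_le_of_norm_le (μ := volume.restrict (ball (0 : V) 2))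
        (f := fun x => chh h x * bw z₀ r (x 2) * tz (G x)) ig
        (Eventually.of_forall fun x => ?_)
      · have e3 : ∫ x in ball (0 : V) 2, r⁻¹ * (S1.indicator (fun x => nsq (G x)) x +
            S2.indicator (fun x => nsq (G x)) x) =
            r⁻¹ * ((∫ x in S1, nsq (G x)) + ∫ x in S2, nsq (G x)) := by
          rw [integral_const_mul, integral_add, setIntegral_indicator mS1,
            setIntegral_indicator mS2, inter_eq_self_of_subset_right sS1,
            inter_eq_self_of_subset_right sS2]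
          · exact (iS1.integrable_indicator mS1).integrableOn
          · exact (iS2.integrable_indicator mS2).integrableOn
        rw [e3] at e2
        refine le_trans ?_ e2
        exact le_abs_self _
      · obtain ⟨b1, b2, b3⟩ := thn_bw z₀ r (x 2) hr
        have i1 : 0 ≤ S1.indicator (fun x => nsq (G x)) x :=
          indicator_nonneg (fun x _ => thn_nsq _) x
        have i2 : 0 ≤ S2.indicator (fun x => nsq (G x)) x :=
          indicator_nonneg (fun x _ => thn_nsq _) x
        have hr' : 0 ≤ r⁻¹ := inv_nonneg.2 hr.le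
        rcases le_or_gt (2 * h) (rho x) with hρ | hρ
        · rw [hc3 x hρ, zero_mul, zero_mul, norm_zero]
          positivity
        rcases le_or_gt r (|x 2 - z₀|) with hx | hx
        · rw [b3 hx, mul_zero, zero_mul, norm_zero]
          positivity
        have h5 : nsq (G x) ≤ S1.indicator (fun x => nsq (G x)) x +
            S2.indicator (fun x => nsq (G x)) x := by
          rcases lt_or_ge (rho x) rc with h6 | h6
          · rw [indicator_of_mem (show x ∈ S1 from ⟨h6, hx⟩)]
            linarith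
          · rw [indicator_of_mem (show x ∈ S2 from ⟨thn_loc x h rc z₀ r h16 hz hρ hx, h6⟩)]
            linarith
        rw [norm_mul, Real.norm_of_nonneg (mul_nonneg (hc1 x).1 b1), Real.norm_eq_abs]
        have h7 : chh h x * bw z₀ r (x 2) ≤ r⁻¹ := by
          calc chh h x * bw z₀ r (x 2) ≤ 1 * bw z₀ r (x 2) :=
                mul_le_mul_of_nonneg_right (hc1 x).2 b1
            _ ≤ r⁻¹ := by rw [one_mul]; exact b2
        exact mul_le_mul h7 ((thn_tz _).trans h5) (abs_nonneg _) hr'
    have e4 : (mu G).real S1 = ∫ x in S1, nsq (G x) := (hmu S1 mS1 sS1).2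
    rw [e4]
    have e5 : 2 * c * r ≤ (∫ x in S1, nsq (G x)) + ∫ x in S2, nsq (G x) := by
      have e6 := hms.trans e1
      rw [← div_eq_inv_mul, le_div_iff₀ hr] at e6
      exact e6
    have e7 : ∫ x in S2, nsq (G x) ≤ c * r := hoc
    linarith
  · have ig : Integrable (fun x => 16 * (rc * nsq (G x) + 2 * h *
        S2.indicator (fun x => nsq (G x)) x)) (volume.restrict (ball (0 : V) 2)) :=
      ((iB.const_mul _).add
        (((iS2.integrable_indicator mS2).integrableOn (s := ball (0 : V) 2)).const_mul _)).const_mul _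
    have e2 := norm_integral_le_of_norm_le (μ := volume.restrict (ball (0 : V) 2))
        (f := fun x => chh h x * bw z₀ (1 / 16) (x 2) * x j * tz (G x)) ig
        (Eventually.of_forall fun x => ?_)
    · have e3 : ∫ x in ball (0 : V) 2, 16 * (rc * nsq (G x) + 2 * h *
          S2.indicator (fun x => nsq (G x)) x) =
          16 * (rc * (∫ x in ball (0 : V) 2, nsq (G x)) + 2 * h * ∫ x in S2, nsq (G x)) := by
        rw [integral_const_mul, integral_add (iB.const_mul _), integral_const_mul,
          integral_const_mul, setIntegral_indicator mS2, inter_eq_self_of_subset_right sS2]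
        exact ((iS2.integrable_indicator mS2).integrableOn (s := ball (0 : V) 2)).const_mul _
      rw [e3] at e2
      rw [(hmu _ measurableSet_ball subset_rfl).2]
      exact e2
    · obtain ⟨b1, b2, b3⟩ := thn_bw z₀ (1 / 16) (x 2) (by norm_num)
      have i2 : 0 ≤ S2.indicator (fun x => nsq (G x)) x :=
        indicator_nonneg (fun x _ => thn_nsq _) x
      have hn := thn_nsq (G x)
      rcases le_or_gt (2 * h) (rho x) with hρ | hρ
      · rw [hc3 x hρ, zero_mul, zero_mul, zero_mul, norm_zero]
        positivity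
      rcases le_or_gt (1 / 16) (|x 2 - z₀|) with hx | hx
      · rw [b3 hx, mul_zero, zero_mul, zero_mul, norm_zero]
        positivity
      have hxj := thn_coord x j hj
      have h5 : |x j| * nsq (G x) ≤ rc * nsq (G x) + 2 * h *
          S2.indicator (fun x => nsq (G x)) x := by
        rcases lt_or_ge (rho x) rc with h6 | h6
        · have h8 : |x j| * nsq (G x) ≤ rc * nsq (G x) :=
            mul_le_mul_of_nonneg_right (hxj.trans h6.le) hn
          have h9 : 0 ≤ 2 * h * S2.indicator (fun x => nsq (G x)) x := by positivity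
          linarith
        · rw [indicator_of_mem (show x ∈ S2 from
            ⟨thn_loc x h rc z₀ (1 / 16) h16 (by linarith) hρ hx, h6⟩)]
          have h8 : |x j| * nsq (G x) ≤ 2 * h * nsq (G x) :=
            mul_le_mul_of_nonneg_right (hxj.trans hρ.le) hn
          have h9 : 0 ≤ rc * nsq (G x) := by positivity
          linarith
      have h7 : chh h x * bw z₀ (1 / 16) (x 2) ≤ 16 := by
        calc chh h x * bw z₀ (1 / 16) (x 2) ≤ 1 * bw z₀ (1 / 16) (x 2) :=
              mul_le_mul_of_nonneg_right (hc1 x).2 b1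
          _ ≤ 16 := by
            rw [one_mul]
            refine b2.trans ?_
            norm_num
      have h8 : ‖chh h x * bw z₀ (1 / 16) (x 2) * x j * tz (G x)‖ =
          (chh h x * bw z₀ (1 / 16) (x 2)) * (|x j| * |tz (G x)|) := by
        rw [norm_mul, norm_mul, Real.norm_of_nonneg (mul_nonneg (hc1 x).1 b1), Real.norm_eq_abs,
          Real.norm_eq_abs]
        ring
      rw [h8]
      refine mul_le_mul h7 ?_ (by positivity) (by norm_num)
      exact (mul_le_mul_of_nonneg_left (thn_tz _) (abs_nonneg _)).trans h5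

end Pool.Agent.H60.D3
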